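import Pool.Agent.Lib.P74ff84.FracEnd

/-!
# Oriented trees in digraphs of large fractional chromatic number

`FracColorable G A B`: the vertices in `A` have a fractional colouring of total weight at most
`B` (nonnegative weights on the independent sets of `G`, of total at most `B`, such that every
vertex of `A` is covered with total weight at least one). The fractional chromatic number
`χ_f` of the digraph `D` is the least `B` for which its vertex set is so colourable.

`T` is an oriented tree with `k` arcs, `D` any finite digraph.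

(1) `χ_f(D) > 4 k` implies that `D` contains `T`.

(2) If all arcs of `T` point away from a root, or all point towards it, `χ_f(D) > 2 k` is
enough.

(3) If `D` has more than `4 k α` vertices, where `α` bounds its independent sets, then `D`
contains `T`.

(4) Let `S` be a subtree of `T` and `p` a number such that every induced subdigraph of `D` with
`χ_f > p` contains `S`. Then `χ_f(D) > p + 4 k` is enough, and `χ_f(D) > p + 2 k` if all arcs
outside `S` point away from `S`, or all point towards `S`.

(5), (6), (7) For every `ε > 0` there is `C > 0`: let every vertex of `T` be at distance at most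
`r` from `S`. Then, with `s` the number of vertices outside `S`,
`χ_f(D) > (1 + ε) p + (2 + ε) s + C r log (r + 2)` is enough; for every subtree `S` with `q` arcs
`χ_f(D) > (4 + ε) q + (2 + ε) (k - q) + C r log (r + 2)` is enough; for `S` a directed path with
`q` arcs `χ_f(D) > (1 + ε) q + (2 + ε) (k - q) + C r log (r + 2)` is enough.
-/

set_option autoImplicit false

namespace Pool.Agent.Results.MP_74ff84_co.FractionalBurr

open P74ff84

/-- The vertices in `A` have a fractional colouring of total weight at most `B`. -/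
def FracColorable {V : Type} [Fintype V] (G : SimpleGraph V) (A : Set V) (B : ℝ) : Prop :=
  ∃ y : Finset V → ℝ, (∀ I, 0 ≤ y I) ∧ (∀ I, y I ≠ 0 → G.IsIndepSet (I : Set V)) ∧
    (∀ v ∈ A, 1 ≤ ∑ I : Finset V, (I : Set V).indicator (fun _ => y I) v) ∧
    ∑ I : Finset V, y I ≤ B

/-- `D` contains the oriented tree `O`. -/
def Contains {k : ℕ} {V : Type} (D : Digraph V) (O : Digraph (Fin (k + 1))) : Prop :=
  ∃ f : Fin (k + 1) → V, Function.Injective f ∧ ∀ u v, O.Adj u v → D.Adj (f u) (f v)

/-- `D` contains the part `S` of the oriented tree `O` inside the vertex set `A`. -/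
def ContainsPart {k : ℕ} {V : Type} (D : Digraph V) (O : Digraph (Fin (k + 1)))
    (S : Set (Fin (k + 1))) (A : Set V) : Prop :=
  ∃ f : Fin (k + 1) → V, Set.InjOn f S ∧ (∀ x ∈ S, f x ∈ A) ∧
    ∀ u ∈ S, ∀ v ∈ S, O.Adj u v → D.Adj (f u) (f v)

theorem fracColorable_mono {V : Type} [Fintype V] {G : SimpleGraph V} {A : Set V} {B B' : ℝ}
    (h : FracColorable G A B) (hB : B ≤ B') : FracColorable G A B' := by
  obtain ⟨y, h1, h2, h3, h4⟩ := h
  exact ⟨y, h1, h2, h3, h4.trans hB⟩

theorem contains_of_part {k : ℕ} {V : Type} {D : Digraph V} {O : Digraph (Fin (k + 1))}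
    {A : Set V} (h : HoldsIn D O Set.univ A) : Contains D O := by
  obtain ⟨f, hf1, _, hf3⟩ := h
  exact ⟨f, fun x y hxy => hf1 trivial trivial hxy, fun u v h => hf3 u trivial v trivial h⟩

theorem connected_univ {k : ℕ} {T : SimpleGraph (Fin (k + 1))} (hT : T.IsTree) :
    (T.induce Set.univ).Connected := by
  refine SimpleGraph.Connected.mk ?_
  rintro ⟨x, _⟩ ⟨y, _⟩
  obtain ⟨p⟩ := hT.connected.preconnected x y
  exact ⟨(p.map (SimpleGraph.induceUnivIso T).symm.toHom).copy rfl rfl⟩

theorem connected_point {k : ℕ} (T : SimpleGraph (Fin (k + 1))) (x0 : Fin (k + 1)) :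
    (T.induce {x0}).Connected := by
  have : Nonempty ({x0} : Set (Fin (k + 1))) := ⟨⟨x0, rfl⟩⟩
  refine SimpleGraph.Connected.mk ?_
  rintro ⟨x, hx⟩ ⟨y, hy⟩
  rw [Set.mem_singleton_iff] at hx hy
  subst hx
  subst hy
  exact SimpleGraph.Reachable.refl _

theorem result :
    (∀ (k : ℕ) (V : Type) [Fintype V] (D : Digraph V) (T : SimpleGraph (Fin (k + 1))),
      T.IsTree → ∀ O : Digraph (Fin (k + 1)), (∀ u v, T.Adj u v ↔ (O.Adj u v ∨ O.Adj v u)) →
      (∀ u v, O.Adj u v → ¬ O.Adj v u) →
      -- (1) all oriented trees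
      (¬ FracColorable (SimpleGraph.fromRel D.Adj) Set.univ (4 * k) → Contains D O) ∧
      -- (2) arborescences
      (∀ x0 : Fin (k + 1), ((∀ u v, O.Adj u v → T.dist x0 u < T.dist x0 v) ∨
          (∀ u v, O.Adj u v → T.dist x0 v < T.dist x0 u)) →
        ¬ FracColorable (SimpleGraph.fromRel D.Adj) Set.univ (2 * k) → Contains D O) ∧
      -- (3) bounded independent sets
      (∀ α : ℕ, (∀ I : Finset V, (SimpleGraph.fromRel D.Adj).IsIndepSet (I : Set V) →
        I.card ≤ α) → 4 * k * α < Fintype.card V → Contains D O) ∧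
      -- (4) around a subtree
      (∀ S : Set (Fin (k + 1)), (T.induce S).Connected → ∀ p : ℝ,
        (∀ A : Set V, ¬ FracColorable (SimpleGraph.fromRel D.Adj) A p →
          ContainsPart D O S A) →
        (¬ FracColorable (SimpleGraph.fromRel D.Adj) Set.univ (p + 4 * k) → Contains D O) ∧
        (∀ x0 ∈ S, ((∀ u v, O.Adj u v → ¬ (u ∈ S ∧ v ∈ S) → T.dist x0 u < T.dist x0 v) ∨
            (∀ u v, O.Adj u v → ¬ (u ∈ S ∧ v ∈ S) → T.dist x0 v < T.dist x0 u)) →
          ¬ FracColorable (SimpleGraph.fromRel D.Adj) Set.univ (p + 2 * k) →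
          Contains D O))) ∧
    (∀ ε : ℝ, 0 < ε → ∃ C : ℝ, 0 < C ∧
      ∀ (k : ℕ) (V : Type) [Fintype V] (D : Digraph V) (T : SimpleGraph (Fin (k + 1))),
      T.IsTree → ∀ O : Digraph (Fin (k + 1)), (∀ u v, T.Adj u v ↔ (O.Adj u v ∨ O.Adj v u)) →
      (∀ u v, O.Adj u v → ¬ O.Adj v u) →
      -- (5) near a subtree
      (∀ (r : ℕ) (S : Set (Fin (k + 1))), (T.induce S).Connected →
        (∀ x, ∃ s ∈ S, T.dist s x ≤ r) → ∀ p : ℝ, 0 ≤ p →
        (∀ A : Set V, ¬ FracColorable (SimpleGraph.fromRel D.Adj) A p →
          ContainsPart D O S A) →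
        ¬ FracColorable (SimpleGraph.fromRel D.Adj) Set.univ
          ((1 + ε) * p + (2 + ε) * ({x | x ∉ S}.ncard : ℝ) + C * r * Real.log (r + 2)) →
        Contains D O) ∧
      -- (6) near a subtree with `q` arcs
      (∀ (q r : ℕ) (S : Set (Fin (k + 1))), (T.induce S).Connected → S.ncard = q + 1 →
        (∀ x, ∃ s ∈ S, T.dist s x ≤ r) →
        ¬ FracColorable (SimpleGraph.fromRel D.Adj) Set.univ
          ((4 + ε) * q + (2 + ε) * ((k - q : ℕ) : ℝ) + C * r * Real.log (r + 2)) →
        Contains D O) ∧
      -- (7) near a directed path with `q` arcs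
      (∀ (q r : ℕ) (g : ℕ → Fin (k + 1)), (∀ i < q, O.Adj (g i) (g (i + 1))) →
        (∀ i ≤ q, ∀ j ≤ q, g i = g j → i = j) →
        (∀ x, ∃ i ≤ q, T.dist (g i) x ≤ r) →
        ¬ FracColorable (SimpleGraph.fromRel D.Adj) Set.univ
          ((1 + ε) * q + (2 + ε) * ((k - q : ℕ) : ℝ) + C * r * Real.log (r + 2)) →
        Contains D O)) := by
  have hk1 : ∀ k : ℕ, ((Set.univ : Set (Fin (k + 1))).ncard : ℝ) - 1 = k := by
    intro k
    rw [Set.ncard_univ, Nat.card_eq_fintype_card, Fintype.card_fin]
    push_cast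
    ring
  constructor
  · intro k V _ D T hT O hO hO'
    have h4 : ∀ S : Set (Fin (k + 1)), (T.induce S).Connected → ∀ p : ℝ,
        (∀ A : Set V, ¬ FracColorable (SimpleGraph.fromRel D.Adj) A p →
          ContainsPart D O S A) →
        (¬ FracColorable (SimpleGraph.fromRel D.Adj) Set.univ (p + 4 * k) → Contains D O) ∧
        (∀ x0 ∈ S, ((∀ u v, O.Adj u v → ¬ (u ∈ S ∧ v ∈ S) → T.dist x0 u < T.dist x0 v) ∨
            (∀ u v, O.Adj u v → ¬ (u ∈ S ∧ v ∈ S) → T.dist x0 v < T.dist x0 u)) →
          ¬ FracColorable (SimpleGraph.fromRel D.Adj) Set.univ (p + 2 * k) →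
          Contains D O) := by
      intro S hS p hp
      constructor
      · intro h
        refine contains_of_part (frac_main D T hT O hO hO' S Set.univ hS (connected_univ hT)
          (Set.subset_univ S) 2 (Or.inl le_rfl) p hp Set.univ ?_)
        rw [hk1]
        have e : p + 2 * 2 * (k : ℝ) = p + 4 * k := by ring
        rw [e]
        exact h
      · intro x0 hx0 hdir h
        refine contains_of_part (frac_main D T hT O hO hO' S Set.univ hS (connected_univ hT)
          (Set.subset_univ S) 1 (Or.inr ⟨le_rfl, x0, hx0, ?_⟩) p hp Set.univ ?_)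
        · rcases hdir with hdir | hdir
          · exact Or.inl (fun u v huv _ _ huv' => hdir u v huv huv')
          · exact Or.inr (fun u v huv _ _ huv' => hdir u v huv huv')
        · rw [hk1]
          have e : p + 2 * 1 * (k : ℝ) = p + 2 * k := by ring
          rw [e]
          exact h
    have h1 : ¬ FracColorable (SimpleGraph.fromRel D.Adj) Set.univ (4 * k) →
        Contains D O := by
      intro h
      refine (h4 {0} (connected_point T 0) 0
        (fun A hA => point_holdsIn D O hO' 0 A hA)).1 ?_
      rw [zero_add]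
      exact h
    refine ⟨h1, ?_, ?_, h4⟩
    · intro x0 hdir h
      refine (h4 {x0} (connected_point T x0) 0
        (fun A hA => point_holdsIn D O hO' x0 A hA)).2 x0 rfl ?_ ?_
      · rcases hdir with hdir | hdir
        · exact Or.inl (fun u v huv _ => hdir u v huv)
        · exact Or.inr (fun u v huv _ => hdir u v huv)
      · rw [zero_add]
        exact h
    · intro α hα hcard
      apply h1
      intro hcon
      have hα0 : 0 < α := by
        by_contra hcon2
        have e : α = 0 := by omega
        subst e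
        rcases isEmpty_or_nonempty V with hV | ⟨⟨v⟩⟩
        · rw [Fintype.card_eq_zero] at hcard
          omega
        · have := hα {v} (by simp [SimpleGraph.IsIndepSet])
          simp at this
      have hα0' : (0 : ℝ) < α := by exact_mod_cast hα0
      have hcon' : FracCol (SimpleGraph.fromRel D.Adj)
          ((Finset.univ : Finset V) : Set V) (4 * k) := by
        rw [Finset.coe_univ]
        exact hcon
      have h2 := FracCol.weight_le hcon' (fun _ => 1 / (α : ℝ)) (fun _ => by positivity) (by
        intro I hI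
        rw [Finset.sum_const, nsmul_eq_mul, mul_one_div, div_le_one hα0']
        exact_mod_cast hα I hI)
      rw [Finset.sum_const, nsmul_eq_mul, mul_one_div, div_le_iff₀ hα0'] at h2
      rw [Finset.card_univ] at h2
      have h3 : Fintype.card V ≤ 4 * k * α := by exact_mod_cast h2
      omega
  · intro ε hε
    have hCF : ∀ ε : ℝ, 0 < ε → 0 < CF ε := by
      intro ε hε
      have h1 := et_pos hε
      have h2 := et_le (ε := ε)
      have h3 : 0 ≤ Real.log (1 / et ε) := Real.log_nonneg (by
        rw [le_div_iff₀ h1]; linarith)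
      unfold CF
      positivity
    have hε4 : 0 < ε / 4 := by positivity
    have hC1 := hCF ε hε
    have hC2 := hCF (ε / 4) hε4
    refine ⟨CF ε + CF (ε / 4), by linarith, ?_⟩
    intro k V _ D T hT O hO hO'
    have hgen : ∀ δ : ℝ, 0 < δ → ∀ (r : ℕ) (S : Set (Fin (k + 1))), (T.induce S).Connected →
        (∀ x, ∃ s ∈ S, T.dist s x ≤ r) → ∀ p : ℝ, 0 ≤ p →
        (∀ A : Set V, ¬ FracColorable (SimpleGraph.fromRel D.Adj) A p →
          ContainsPart D O S A) →
        ¬ FracColorable (SimpleGraph.fromRel D.Adj) Set.univ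
          ((1 + δ) * p + (2 + δ) * ({x | x ∉ S}.ncard : ℝ) + CF δ * r * Real.log (r + 2)) →
        Contains D O := by
      intro δ hδ r S hS hr p hp0 hp hD
      obtain ⟨w, hw0, hw1, hw2⟩ := exists_weight hD
      exact weighted_final δ hδ D T hT O hO hO' S hS hr w hw0 hw1 p hp0
        (fun A hA => hp A (fun hcon => absurd (FracCol.weight_le hcon w hw0 hw1) hA.not_ge))
        hw2
    have hlog : ∀ r : ℕ, 0 ≤ (r : ℝ) * Real.log (r + 2) := by
      intro r
      have h1 : (1 : ℝ) ≤ (r : ℝ) + 2 := by
        have := (Nat.cast_nonneg r : (0 : ℝ) ≤ r)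
        linarith
      exact mul_nonneg (Nat.cast_nonneg r) (Real.log_nonneg h1)
    have h5 : ∀ (r : ℕ) (S : Set (Fin (k + 1))), (T.induce S).Connected →
        (∀ x, ∃ s ∈ S, T.dist s x ≤ r) → ∀ p : ℝ, 0 ≤ p →
        (∀ A : Set V, ¬ FracColorable (SimpleGraph.fromRel D.Adj) A p →
          ContainsPart D O S A) →
        ¬ FracColorable (SimpleGraph.fromRel D.Adj) Set.univ
          ((1 + ε) * p + (2 + ε) * ({x | x ∉ S}.ncard : ℝ)
            + (CF ε + CF (ε / 4)) * r * Real.log (r + 2)) →
        Contains D O := by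
      intro r S hS hr p hp0 hp hD
      refine hgen ε hε r S hS hr p hp0 hp (fun hcon => hD (fracColorable_mono hcon ?_))
      have h1 := mul_nonneg hC2.le (hlog r)
      have e1 : (CF ε + CF (ε / 4)) * r * Real.log (r + 2)
          = CF ε * r * Real.log (r + 2) + CF (ε / 4) * (r * Real.log (r + 2)) := by ring
      rw [e1]
      linarith
    refine ⟨h5, ?_, ?_⟩
    · intro q r S hS hq hr hD
      obtain ⟨⟨x0, hx0⟩⟩ := hS.nonempty
      have hbox : ∀ A : Set V, ¬ FracColorable (SimpleGraph.fromRel D.Adj) A (4 * q) →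
          ContainsPart D O S A := by
        intro A hA
        refine frac_main D T hT O hO hO' {x0} S (connected_point T x0) hS
          (Set.singleton_subset_iff.mpr hx0) 2 (Or.inl le_rfl) 0
          (fun A hA => point_holdsIn D O hO' x0 A hA) A ?_
        have e : (0 : ℝ) + 2 * 2 * ((S.ncard : ℝ) - 1) = 4 * q := by
          rw [hq]
          push_cast
          ring
        rw [e]
        exact hA
      refine hgen (ε / 4) hε4 r S hS hr (4 * q) (by positivity) hbox
        (fun hcon => hD (fracColorable_mono hcon ?_))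
      have hcompl : {x | x ∉ S}.ncard = k - q := by
        have h3 : {x | x ∉ S} = Sᶜ := rfl
        rw [h3, Set.ncard_compl, hq, Nat.card_eq_fintype_card, Fintype.card_fin]
        omega
      rw [hcompl]
      have h1 := mul_nonneg hC1.le (hlog r)
      have e1 : (CF ε + CF (ε / 4)) * r * Real.log (r + 2)
          = CF (ε / 4) * r * Real.log (r + 2) + CF ε * (r * Real.log (r + 2)) := by ring
      rw [e1]
      have h2 : (0 : ℝ) ≤ ((k - q : ℕ) : ℝ) := Nat.cast_nonneg _
      have h3 : (0 : ℝ) ≤ (q : ℝ) := Nat.cast_nonneg _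
      nlinarith
    · intro q r g hg hinj hr hD
      refine h5 r {x | ∃ i ≤ q, g i = x}
        (path_connected g q (fun i hi => (hO _ _).mpr (Or.inl (hg i hi)))) ?_ q
        (Nat.cast_nonneg q) ?_ ?_
      · intro x
        obtain ⟨i, hi, hx⟩ := hr x
        exact ⟨g i, ⟨i, hi, rfl⟩, hx⟩
      · intro A hA
        refine path_holdsIn D T hT O hO hO' q g hg hinj A ?_
        intro hcon
        exact hA (FracCol.of_colSet hcon)
      · rw [ncard_compl_path q g hinj]
        exact hD

end Pool.Agent.Results.MP_74ff84_co.FractionalBurr
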