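import Pool.Agent.Lib.P74ff84.Ends
import Pool.Agent.Lib.P74ff84.FinalE

/-!
# Oriented trees in digraphs of large chromatic number: `(2 + ε) k + C r log k` and `C k log k`

`T` is an oriented tree with `k` arcs (underlying tree `T`, orientation `O`), `D` a finite
digraph. No bound on the number of vertices of `D` is assumed.

(a) For every `ε > 0` there is `C > 0` such that `D` contains `T` in each of these cases.

(1) Every vertex of `T` is at distance at most `r` from a directed path of `T` with `q` arcs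
(`q = 0`: from a vertex), and the chromatic number of `D` is larger than
`q + (2 + ε) (k - q) + C r log (k + 1)`.

(2) `S` is a subtree of `T`, every vertex of `T` is at distance at most `r` from `S`, every
induced subdigraph of `D` of chromatic number larger than `p` contains `S`, and the chromatic
number of `D` is larger than
`p + (2 + ε) (number of vertices outside S) + C r log (k + 1)`.

(b) There is `C > 0` such that `D` contains every oriented tree with `k` arcs as soon as its
chromatic number is larger than `C k log (k + 1)`.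
-/

set_option autoImplicit false

namespace Pool.Agent.Results.MP_74ff84_co.LogBurr

open P74ff84

theorem result :
    -- (a)
    (∀ ε : ℝ, 0 < ε → ∃ C : ℝ, 0 < C ∧
      ∀ (k : ℕ) (V : Type) [Fintype V] (D : Digraph V) (T : SimpleGraph (Fin (k + 1))),
        T.IsTree → ∀ O : Digraph (Fin (k + 1)), (∀ u v, T.Adj u v ↔ (O.Adj u v ∨ O.Adj v u)) →
        (∀ u v, O.Adj u v → ¬ O.Adj v u) →
        -- (1) near a directed path
        (∀ (q r : ℕ) (g : ℕ → Fin (k + 1)), (∀ i < q, O.Adj (g i) (g (i + 1))) →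
          (∀ i ≤ q, ∀ j ≤ q, g i = g j → i = j) →
          (∀ x, ∃ i ≤ q, T.dist (g i) x ≤ r) →
          (∀ m : ℕ, (m : ℝ) ≤ q + (2 + ε) * ((k - q : ℕ) : ℝ) + C * r * Real.log (k + 1) →
            ¬ (SimpleGraph.fromRel D.Adj).Colorable m) →
          ∃ f : Fin (k + 1) → V, Function.Injective f ∧
            ∀ u v, O.Adj u v → D.Adj (f u) (f v)) ∧
        -- (2) near any subtree
        (∀ (p r : ℕ) (S : Set (Fin (k + 1))), (T.induce S).Connected →
          (∀ x, ∃ s ∈ S, T.dist s x ≤ r) →
          (∀ A : Set V, ¬ ((SimpleGraph.fromRel D.Adj).induce A).Colorable p →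
            HoldsIn D O S A) →
          (∀ m : ℕ, (m : ℝ) ≤ p + (2 + ε) * ({x | x ∉ S}.ncard : ℝ)
              + C * r * Real.log (k + 1) →
            ¬ (SimpleGraph.fromRel D.Adj).Colorable m) →
          ∃ f : Fin (k + 1) → V, Function.Injective f ∧
            ∀ u v, O.Adj u v → D.Adj (f u) (f v))) ∧
    -- (b)
    (∃ C : ℝ, 0 < C ∧
      ∀ (k : ℕ) (V : Type) [Fintype V] (D : Digraph V) (T : SimpleGraph (Fin (k + 1))),
        T.IsTree → ∀ O : Digraph (Fin (k + 1)), (∀ u v, T.Adj u v ↔ (O.Adj u v ∨ O.Adj v u)) →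
        (∀ u v, O.Adj u v → ¬ O.Adj v u) →
        (∀ m : ℕ, (m : ℝ) ≤ C * k * Real.log (k + 1) →
          ¬ (SimpleGraph.fromRel D.Adj).Colorable m) →
        ∃ f : Fin (k + 1) → V, Function.Injective f ∧
          ∀ u v, O.Adj u v → D.Adj (f u) (f v)) := by
  have ha : ∀ ε : ℝ, 0 < ε → ∀ (k : ℕ) (V : Type) [Fintype V] (D : Digraph V)
      (T : SimpleGraph (Fin (k + 1))),
        T.IsTree → ∀ O : Digraph (Fin (k + 1)), (∀ u v, T.Adj u v ↔ (O.Adj u v ∨ O.Adj v u)) →
        (∀ u v, O.Adj u v → ¬ O.Adj v u) →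
        (∀ (q r : ℕ) (g : ℕ → Fin (k + 1)), (∀ i < q, O.Adj (g i) (g (i + 1))) →
          (∀ i ≤ q, ∀ j ≤ q, g i = g j → i = j) →
          (∀ x, ∃ i ≤ q, T.dist (g i) x ≤ r) →
          (∀ m : ℕ, (m : ℝ) ≤ q + (2 + ε) * ((k - q : ℕ) : ℝ)
              + CE ε * r * Real.log (k + 1) →
            ¬ (SimpleGraph.fromRel D.Adj).Colorable m) →
          ∃ f : Fin (k + 1) → V, Function.Injective f ∧
            ∀ u v, O.Adj u v → D.Adj (f u) (f v)) := by
    intro ε hε k V _ D T hT O hO hO' q r g hg hinj hr hD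
    refine absorb_final ε hε (p := q) D T hT O hO hO' {x | ∃ i ≤ q, g i = x}
      (path_connected g q (fun i hi => (hO _ _).mpr (Or.inl (hg i hi)))) (r := r) ?_ ?_ ?_
    · intro x
      obtain ⟨i, hi, hx⟩ := hr x
      exact ⟨g i, ⟨i, hi, rfl⟩, hx⟩
    · intro A hA
      refine path_holdsIn D T hT O hO hO' q g hg hinj A ?_
      intro hcon
      apply hA
      obtain ⟨f, hf1, hf2⟩ := hcon
      refine ⟨SimpleGraph.Coloring.mk (fun v => (⟨f v, hf1 v v.2⟩ : Fin q)) ?_⟩
      intro u v huv h
      exact hf2 u u.2 v v.2 huv (by simpa using congrArg Fin.val h)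
    · rw [ncard_compl_path q g hinj]
      exact hD
  refine ⟨?_, ?_⟩
  · intro ε hε
    refine ⟨CE ε, CE_pos ε, ?_⟩
    intro k V _ D T hT O hO hO'
    exact ⟨ha ε hε k V D T hT O hO hO',
      fun p r S hS hr hp hD => absorb_final ε hε D T hT O hO hO' S hS hr hp hD⟩
  · refine ⟨6 + CE 1, by linarith [CE_pos 1], ?_⟩
    intro k V _ D T hT O hO hO' hD
    have hk0 : (0 : ℝ) ≤ k := Nat.cast_nonneg k
    refine ha 1 one_pos k V D T hT O hO hO' 0 k (fun _ => 0) (fun i hi => by omega)
      (fun i hi j hj _ => by omega) ?_ ?_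
    · intro x
      refine ⟨0, le_rfl, ?_⟩
      obtain ⟨p, hp, _⟩ := hT.connected.exists_path_of_dist 0 x
      obtain ⟨w, hw⟩ := hT.connected.exists_walk_length_eq_dist 0 x
      have hwp : w.IsPath := SimpleGraph.Walk.isPath_of_length_eq_dist _ hw
      have := hwp.length_lt
      rw [Fintype.card_fin] at this
      omega
    · intro m hm
      apply hD m
      refine hm.trans ?_
      rcases Nat.eq_zero_or_pos k with rfl | hk
      · simp
      · have hk' : (1 : ℝ) ≤ k := by exact_mod_cast hk
        have h1 : Real.log 2 ≤ Real.log ((k : ℝ) + 1) :=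
          Real.log_le_log (by norm_num) (by linarith)
        have h2 := Real.log_two_gt_d9
        have h3 : (3 : ℝ) * k ≤ 6 * k * Real.log ((k : ℝ) + 1) := by nlinarith
        push_cast
        rw [Nat.sub_zero]
        nlinarith

end Pool.Agent.Results.MP_74ff84_co.LogBurr
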