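import Pool.Agent.Lib.P74ff84.Cuts

/-!
# Oriented trees that are cut into directed paths, in digraphs of large chromatic number

`T` is an oriented tree with `k` arcs (underlying tree `T`, orientation `O`), `D` a finite
digraph. No bound on the number of vertices of `D` is assumed.

(1) Joining two trees by an arc: if `X` and `Y` are disjoint subtrees of `T` joined by an arc,
every induced subdigraph of `D` of chromatic number larger than `p` contains `X`, and every one
of chromatic number larger than `q` contains `Y`, then every one of chromatic number larger than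
`4 (p + q) + 1` contains the subtree `X ∪ Y`.

(2) If `T` is cut into directed paths by `d` nested rounds of cuts at single arcs, `D` contains
`T` as soon as its chromatic number is at least `4 ^ d (k + 1)`.

(3) For every `ε > 0` there is `C > 0` such that, if a subtree `S` of `T` is cut into directed
paths by `d` nested rounds and every vertex of `T` is at distance at most `r` from `S`,
chromatic number larger than
`4 ^ d |S| + (2 + ε) (number of vertices outside S) + C r log (k + 1)` is enough.
-/

set_option autoImplicit false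

namespace Pool.Agent.Results.MP_74ff84_co.NestedCuts

open P74ff84

theorem result :
    -- (1) joining two trees by an arc
    (∀ (k : ℕ) (V : Type) [Fintype V] (D : Digraph V) (T : SimpleGraph (Fin (k + 1))),
      T.IsTree → ∀ O : Digraph (Fin (k + 1)), (∀ u v, T.Adj u v ↔ (O.Adj u v ∨ O.Adj v u)) →
      (∀ u v, O.Adj u v → ¬ O.Adj v u) →
      ∀ (X Y : Set (Fin (k + 1))), (T.induce X).Connected → (T.induce Y).Connected →
      Disjoint X Y → (∃ x ∈ X, ∃ y ∈ Y, T.Adj x y) → ∀ p q : ℕ,
      (∀ A : Set V, ¬ ((SimpleGraph.fromRel D.Adj).induce A).Colorable p → HoldsIn D O X A) →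
      (∀ A : Set V, ¬ ((SimpleGraph.fromRel D.Adj).induce A).Colorable q → HoldsIn D O Y A) →
      ∀ A : Set V, ¬ ((SimpleGraph.fromRel D.Adj).induce A).Colorable (4 * (p + q) + 1) →
        HoldsIn D O (X ∪ Y) A) ∧
    -- (2) nested cuts
    (∀ (k : ℕ) (V : Type) [Fintype V] (D : Digraph V) (T : SimpleGraph (Fin (k + 1))),
      T.IsTree → ∀ O : Digraph (Fin (k + 1)), (∀ u v, T.Adj u v ↔ (O.Adj u v ∨ O.Adj v u)) →
      (∀ u v, O.Adj u v → ¬ O.Adj v u) → ∀ d : ℕ, Cuts O d Set.univ →
      ¬ (SimpleGraph.fromRel D.Adj).Colorable (4 ^ d * (k + 1) - 1) →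
      ∃ f : Fin (k + 1) → V, Function.Injective f ∧ ∀ u v, O.Adj u v → D.Adj (f u) (f v)) ∧
    -- (3) nested cuts and everything near them
    (∀ ε : ℝ, 0 < ε → ∃ C : ℝ, 0 < C ∧
      ∀ (k : ℕ) (V : Type) [Fintype V] (D : Digraph V) (T : SimpleGraph (Fin (k + 1))),
      T.IsTree → ∀ O : Digraph (Fin (k + 1)), (∀ u v, T.Adj u v ↔ (O.Adj u v ∨ O.Adj v u)) →
      (∀ u v, O.Adj u v → ¬ O.Adj v u) →
      ∀ (d r : ℕ) (S : Set (Fin (k + 1))), Cuts O d S → (∀ x, ∃ s ∈ S, T.dist s x ≤ r) →
      (∀ m : ℕ, (m : ℝ) ≤ 4 ^ d * (S.ncard : ℝ) + (2 + ε) * ({x | x ∉ S}.ncard : ℝ)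
          + C * r * Real.log (k + 1) →
        ¬ (SimpleGraph.fromRel D.Adj).Colorable m) →
      ∃ f : Fin (k + 1) → V, Function.Injective f ∧
        ∀ u v, O.Adj u v → D.Adj (f u) (f v)) := by
  refine ⟨?_, ?_, ?_⟩
  · rintro k V _ D T hT O hO hO' X Y hX hY hdis ⟨x, hx, y, hy, hxy⟩ p q hp hq A hA
    exact holds_join D T hT O hO hO' X Y hX hY hdis x y hx hy hxy p q
      (fun B hB => hp B (fun hcon => hB (colSet_of_induce hcon)))
      (fun B hB => hq B (fun hcon => hB (colSet_of_induce hcon))) A
      (fun hcon => hA (colSet_induce hcon))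
  · intro k V _ D T hT O hO hO' d hc hD
    refine holdsIn_univ D O Set.univ (fun x => Set.mem_univ x) Set.univ
      ((cuts_holds D T hT O hO hO' hc).2 Set.univ ?_)
    intro hcon
    apply hD
    have h1 : (Set.univ : Set (Fin (k + 1))).ncard = k + 1 := by
      rw [Set.ncard_univ, Nat.card_eq_fintype_card, Fintype.card_fin]
    rw [h1] at hcon
    exact hcon.colorable
  · intro ε hε
    refine ⟨CE ε, CE_pos ε, ?_⟩
    intro k V _ D T hT O hO hO' d r S hc hr hD
    have h := cuts_holds D T hT O hO hO' hc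
    refine absorb_final ε hε (p := 4 ^ d * S.ncard - 1) D T hT O hO hO' S h.1 (r := r) hr
      (fun A hA => h.2 A (fun hcon => hA (colSet_induce hcon))) ?_
    intro m hm
    apply hD m
    refine hm.trans ?_
    have h1 : ((4 ^ d * S.ncard - 1 : ℕ) : ℝ) ≤ 4 ^ d * (S.ncard : ℝ) := by
      calc ((4 ^ d * S.ncard - 1 : ℕ) : ℝ) ≤ ((4 ^ d * S.ncard : ℕ) : ℝ) := by
            exact_mod_cast Nat.sub_le _ _
        _ = 4 ^ d * (S.ncard : ℝ) := by push_cast; ring
    linarith

end Pool.Agent.Results.MP_74ff84_co.NestedCuts
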