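import Pool.Agent.Lib.P74ff84.PathForest

/-!
# Oriented trees of small height in digraphs of large chromatic number

`T` is an oriented tree with `k ≥ 1` arcs (underlying tree `T`, orientation `O`), `D` a finite
digraph. No bound on the number of vertices of `D` is assumed.

(1) If `T` has a subtree `S` of height at most `h` (there is a level function on `S` with values
`0, …, h` that increases by one along every arc) and every vertex of `T` is at distance at most
`r` from `S`, then every `D` with chromatic number larger than `(4 k - 3) h + (4 k - 2) r`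
contains `T`.

(2) If `T` consists of a directed path with `q` arcs and of forests of height at most `h`
hanging on it, chromatic number larger than `q + (6 k - 4) h` is enough.

(3) The general form: `S` is any subtree, `p` a number such that every induced subdigraph of `D`
of chromatic number larger than `p` contains `S`. The rest of `T` is attached in `r` rounds `ρ`,
round `i` with its own level function `ℓ i`; every class (round `i`, levels `j` and `j + 1`)
has a price, and `p` plus the sum of the prices is enough.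
-/

set_option autoImplicit false

namespace Pool.Agent.Results.MP_74ff84_co.NestedRoles

open P74ff84

theorem result (k : ℕ) (hk : 1 ≤ k) (V : Type) [Fintype V] (D : Digraph V)
    (T : SimpleGraph (Fin (k + 1))) (hT : T.IsTree) (O : Digraph (Fin (k + 1)))
    (hO : ∀ u v, T.Adj u v ↔ (O.Adj u v ∨ O.Adj v u))
    (hO' : ∀ u v, O.Adj u v → ¬ O.Adj v u) :
    -- (1) a subtree of small height and everything near it
    (∀ (h r : ℕ) (S : Set (Fin (k + 1))), (T.induce S).Connected →
      (∀ x, ∃ s ∈ S, T.dist s x ≤ r) →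
      ∀ L : Fin (k + 1) → ℕ, (∀ x ∈ S, L x ≤ h) →
      (∀ a ∈ S, ∀ b ∈ S, O.Adj a b → L b = L a + 1) →
      ¬ (SimpleGraph.fromRel D.Adj).Colorable ((4 * k - 3) * h + (4 * k - 2) * r) →
      ∃ f : Fin (k + 1) → V, Function.Injective f ∧ ∀ u v, O.Adj u v → D.Adj (f u) (f v)) ∧
    -- (2) a directed path with forests of small height
    (∀ (q h : ℕ) (g : ℕ → Fin (k + 1)), (∀ i < q, O.Adj (g i) (g (i + 1))) →
      (∀ i ≤ q, ∀ j ≤ q, g i = g j → i = j) →
      ∀ L : Fin (k + 1) → ℕ,
      (∀ a b, O.Adj a b → ¬ ((∃ i ≤ q, g i = a) ∧ (∃ i ≤ q, g i = b)) →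
        L b = L a + 1 ∧ L b ≤ h) →
      ¬ (SimpleGraph.fromRel D.Adj).Colorable (q + (6 * k - 4) * h) →
      ∃ f : Fin (k + 1) → V, Function.Injective f ∧ ∀ u v, O.Adj u v → D.Adj (f u) (f v)) ∧
    -- (3) nested rounds
    (∀ (p r h : ℕ) (S : Set (Fin (k + 1))) (x0 : Fin (k + 1)), x0 ∈ S →
      (∀ A : Set V, ¬ ((SimpleGraph.fromRel D.Adj).induce A).Colorable p →
        HoldsIn D O S A) →
      ∀ (ρ : Fin (k + 1) → ℕ) (ℓ : ℕ → Fin (k + 1) → ℕ), (∀ x, ρ x = 0 ↔ x ∈ S) →
      (∀ x y, T.Adj x y → T.dist x0 x < T.dist x0 y → ρ x ≤ ρ y) → (∀ x, ρ x ≤ r) →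
      (∀ a b, O.Adj a b → 1 ≤ max (ρ a) (ρ b) →
        ℓ (max (ρ a) (ρ b)) b = ℓ (max (ρ a) (ρ b)) a + 1 ∧ ℓ (max (ρ a) (ρ b)) b ≤ h) →
      ¬ (SimpleGraph.fromRel D.Adj).Colorable
        (p + ∑ i ∈ Finset.range r, ∑ j ∈ Finset.range h, price T O x0 ρ ℓ (i + 1) j) →
      ∃ f : Fin (k + 1) → V, Function.Injective f ∧ ∀ u v, O.Adj u v → D.Adj (f u) (f v)) :=
  ⟨fun h r S hS hr L hL hL' hD => layers_main hk D T hT O hO hO' S hS L h r hL hL' hr hD,
    fun q h g hg hinj L hL hD => path_forest hk D T hT O hO hO' q g hg hinj L h hL hD,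
    fun p r h S x0 hx0 hp ρ ℓ hρ0 hρ hr hl hD =>
      rounds_main T O x0 ρ ℓ D hk hT hO hO' S hx0 hρ0 hρ r hr h hl p hp hD⟩

end Pool.Agent.Results.MP_74ff84_co.NestedRoles
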